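import Pool.Agent.Helper95.BIT.Defs

/-!
# BIT/Topo: ccc and maximal families in Luzin spaces (stub, prove in place)

(1) `discrete`: a set `D` such that every `d ∈ D` has an open `V` with `V ∩ D = {d}` is nowhere
dense.  Suppose the open set `U = interior (closure D)` is nonempty.  Then it meets `D`; let
`d ∈ U ∩ D` and `V` open with `V ∩ D = {d}`.  The open set `(V ∩ U) \ {d}` is nonempty, because
otherwise `V ∩ U = {d}` would be open, against `hX.noiso`; it is contained in `closure D`, so it meets
`D`, in a point of `V ∩ D = {d}`, different from `d`: contradiction.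

(2) `ccc`: choose points `x i ∈ V i`.  The map `x` is injective (disjointness), and
`D = range x` satisfies the hypothesis of (1) with the open sets `V i`.  So `D` is nowhere dense, hence
countable by `hX.nwd`, and `ι` is countable.

(3) `maxfam`: let `P` be a property of sets such that the sets with the property `P` are open and
nonempty.  By Zorn's lemma (`zorn_subset` or `exists_maximal...`; or
`Set.exists_maximal_pairwiseDisjoint`-like arguments) there is a maximal family `F` of pairwise
disjoint sets with the property `P`.  By (2) it is countable.  Enumerate it by `V : ℕ → Set X`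
(if `F` is empty take `V n = ∅`).  If `W` has the property `P` and `W ∩ V n = ∅` for all `n`, then
`F ∪ {W}` would be larger (`W ∉ F` since `W` is nonempty), contradiction.

(4) `nwd_compl`: if `G` is open and meets every nonempty open set, then `Gᶜ` is nowhere dense (it is
closed with empty interior), hence countable.

(5) `refine`: every nonempty open set `O` contains, for every point `q`, a nonempty open set `V` with
`q ∉ closure V`: `O` has a point `x ≠ q` (otherwise `O = {q}` is open); by the Hausdorff property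
there are disjoint open sets `V₀ ∋ x`, `V₁ ∋ q`; let `V = O ∩ V₀`.

(6) `split`: every nonempty open set contains two disjoint nonempty open sets (two different points
and the Hausdorff property).
-/

set_option autoImplicit false

namespace BIT

universe u v

theorem discrete {X : Type u} [TopologicalSpace X] [T2Space X] (hX : Luzin X) (D : Set X)
    (hD : ∀ d ∈ D, ∃ V : Set X, IsOpen V ∧ V ∩ D = {d}) : IsNowhereDense D := by
  rw [IsNowhereDense]
  by_contra hne
  obtain ⟨y, hy⟩ := Set.nonempty_iff_ne_empty.mpr hne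
  have hUo : IsOpen (interior (closure D)) := isOpen_interior
  have hyc : y ∈ closure D := interior_subset hy
  obtain ⟨d, hdU, hdD⟩ := mem_closure_iff.mp hyc _ hUo hy
  obtain ⟨V, hVo, hV⟩ := hD d hdD
  have hdV : d ∈ V := by
    have : d ∈ V ∩ D := by rw [hV]; exact rfl
    exact this.1
  have hne2 : ((V ∩ interior (closure D)) \ {d}).Nonempty := by
    by_contra hemp
    rw [Set.not_nonempty_iff_eq_empty] at hemp
    have heq : V ∩ interior (closure D) = {d} := by
      apply Set.Subset.antisymm
      · intro x hx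
        by_contra hxd
        have : x ∈ (V ∩ interior (closure D)) \ {d} := ⟨hx, hxd⟩
        rw [hemp] at this
        exact this
      · intro x hx
        rw [Set.mem_singleton_iff] at hx
        subst hx
        exact ⟨hdV, hdU⟩
    exact hX.noiso d (heq ▸ hVo.inter hUo)
  obtain ⟨z, hz⟩ := hne2
  have hWo : IsOpen ((V ∩ interior (closure D)) \ {d}) :=
    (hVo.inter hUo).sdiff isClosed_singleton
  have hzc : z ∈ closure D := interior_subset hz.1.2
  obtain ⟨w, hwW, hwD⟩ := mem_closure_iff.mp hzc _ hWo hz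
  have : w ∈ V ∩ D := ⟨hwW.1.1, hwD⟩
  rw [hV] at this
  exact hwW.2 this

theorem ccc {X : Type u} [TopologicalSpace X] [T2Space X] (hX : Luzin X) {ι : Type v}
    (V : ι → Set X) (ho : ∀ i, IsOpen (V i)) (hne : ∀ i, (V i).Nonempty)
    (hd : ∀ i j, i ≠ j → Disjoint (V i) (V j)) : Countable ι := by
  choose x hx using hne
  have hinj : Function.Injective x := by
    intro i j hij
    by_contra hne
    exact Set.disjoint_left.mp (hd i j hne) (hx i) (hij ▸ hx j)
  have hnd : IsNowhereDense (Set.range x) := by
    apply discrete hX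
    rintro _ ⟨i, rfl⟩
    refine ⟨V i, ho i, ?_⟩
    apply Set.Subset.antisymm
    · rintro _ ⟨hyV, j, rfl⟩
      by_cases hij : i = j
      · subst hij; rfl
      · exact absurd (hx j) (Set.disjoint_left.mp (hd i j hij) hyV)
    · intro y hy
      rw [Set.mem_singleton_iff] at hy
      subst hy
      exact ⟨hx i, Set.mem_range_self i⟩
  have hc := hX.nwd _ hnd
  have : Countable (Set.range x) := hc.to_subtype
  exact (Equiv.ofInjective x hinj).injective.countable

theorem maxfam {X : Type u} [TopologicalSpace X] [T2Space X] (hX : Luzin X) (P : Set X → Prop)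
    (hP : ∀ V, P V → IsOpen V ∧ V.Nonempty) :
    ∃ V : ℕ → Set X, (∀ n, V n = ∅ ∨ P (V n)) ∧ ∀ W, P W → ∃ n, (W ∩ V n).Nonempty := by
  classical
  obtain ⟨F, hF⟩ := zorn_subset {F : Set (Set X) | (∀ V ∈ F, P V) ∧ F.PairwiseDisjoint id} (by
    intro c hc hchain
    refine ⟨⋃₀ c, ⟨?_, ?_⟩, fun s hs => Set.subset_sUnion_of_mem hs⟩
    · rintro V ⟨s, hs, hV⟩
      exact (hc hs).1 V hV
    · exact (Set.pairwiseDisjoint_sUnion hchain.directedOn).mpr (fun s hs => (hc hs).2))
  have hFm := hF.prop
  have hcount : F.Countable := by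
    have : Countable F := ccc hX (fun i : F => (i : Set X)) (fun i => (hP _ (hFm.1 _ i.2)).1)
      (fun i => (hP _ (hFm.1 _ i.2)).2) (fun i j hij => hFm.2 i.2 j.2 (fun h => hij (Subtype.ext h)))
    exact this
  have key : ∀ W, P W → ∃ V ∈ F, (W ∩ V).Nonempty := by
    intro W hW
    by_contra hcon
    push Not at hcon
    have hWF : W ∉ F := by
      intro h
      have := hcon W h
      rw [Set.inter_self] at this
      exact Set.nonempty_iff_ne_empty.mp (hP W hW).2 this
    have hins : insert W F ∈ {F : Set (Set X) | (∀ V ∈ F, P V) ∧ F.PairwiseDisjoint id} := by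
      refine ⟨?_, ?_⟩
      · intro V hV
        rcases Set.mem_insert_iff.mp hV with rfl | h
        · exact hW
        · exact hFm.1 V h
      · apply hFm.2.insert
        intro V hV _
        exact Set.disjoint_iff_inter_eq_empty.mpr (hcon V hV)
    have := hF.le_of_ge hins (Set.subset_insert W F)
    exact hWF (this (Set.mem_insert W F))
  by_cases hFe : F.Nonempty
  · obtain ⟨f, hf⟩ := hcount.exists_eq_range hFe
    refine ⟨f, fun n => Or.inr (hFm.1 _ (by rw [hf]; exact Set.mem_range_self n)), ?_⟩
    intro W hW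
    obtain ⟨V, hV, hVW⟩ := key W hW
    rw [hf] at hV
    obtain ⟨n, rfl⟩ := hV
    exact ⟨n, hVW⟩
  · refine ⟨fun _ => ∅, fun _ => Or.inl rfl, ?_⟩
    intro W hW
    obtain ⟨V, hV, _⟩ := key W hW
    exact absurd ⟨V, hV⟩ hFe

theorem nwd_compl {X : Type u} [TopologicalSpace X] (G : Set X) (hG : IsOpen G)
    (h : ∀ O : Set X, IsOpen O → O.Nonempty → (O ∩ G).Nonempty) : IsNowhereDense Gᶜ := by
  rw [IsNowhereDense, hG.isClosed_compl.closure_eq]
  by_contra hne
  obtain ⟨x, hx⟩ := h _ isOpen_interior (Set.nonempty_iff_ne_empty.mpr hne)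
  exact interior_subset hx.1 hx.2

theorem exists_ne' {X : Type u} [TopologicalSpace X] [T2Space X] (hX : Luzin X) (q : X) (O : Set X)
    (hO : IsOpen O) (hne : O.Nonempty) : ∃ x ∈ O, x ≠ q := by
  by_contra hcon
  push Not at hcon
  obtain ⟨y, hy⟩ := hne
  have : O = {q} := by
    apply Set.Subset.antisymm
    · intro x hx
      exact hcon x hx
    · intro x hx
      rw [Set.mem_singleton_iff] at hx
      rw [hx, ← hcon y hy]
      exact hy
  exact hX.noiso q (this ▸ hO)

theorem refine' {X : Type u} [TopologicalSpace X] [T2Space X] (hX : Luzin X) (q : X) (O : Set X)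
    (hO : IsOpen O) (hne : O.Nonempty) :
    ∃ V : Set X, IsOpen V ∧ V.Nonempty ∧ V ⊆ O ∧ q ∉ closure V := by
  obtain ⟨x, hxO, hxq⟩ := exists_ne' hX q O hO hne
  obtain ⟨V0, V1, h0, h1, hx0, hq1, hdis⟩ := t2_separation hxq
  refine ⟨O ∩ V0, hO.inter h0, ⟨x, hxO, hx0⟩, Set.inter_subset_left, ?_⟩
  intro hq
  obtain ⟨z, hz1, hz2⟩ := mem_closure_iff.mp hq V1 h1 hq1
  exact Set.disjoint_left.mp hdis hz2.2 hz1

theorem split {X : Type u} [TopologicalSpace X] [T2Space X] (hX : Luzin X) (O : Set X)
    (hO : IsOpen O) (hne : O.Nonempty) :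
    ∃ V W : Set X, IsOpen V ∧ V.Nonempty ∧ V ⊆ O ∧ IsOpen W ∧ W.Nonempty ∧ W ⊆ O ∧ Disjoint V W := by
  obtain ⟨y, hy⟩ := hne
  obtain ⟨x, hxO, hxq⟩ := exists_ne' hX y O hO ⟨y, hy⟩
  obtain ⟨V0, V1, h0, h1, hx0, hq1, hdis⟩ := t2_separation hxq
  refine ⟨O ∩ V0, O ∩ V1, hO.inter h0, ⟨x, hxO, hx0⟩, Set.inter_subset_left, hO.inter h1,
    ⟨y, hy, hq1⟩, Set.inter_subset_left, ?_⟩
  exact Set.disjoint_left.mpr (fun z hz hz' => Set.disjoint_left.mp hdis hz.2 hz'.2)

end BIT
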