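import Pool.Agent.Helper95.BIT.OmA
import Pool.Agent.Helper95.BIT.Topo

/-!
# BIT/Fib: undecidable sequences of open sets and Q-sets contradict ccc

Let `G n` be open sets and `O` a nonempty open set such that no nonempty open `V ⊆ O` decides all `G n`.

Step 1.  Let `Bd n = closure (G n) \ G n`: it is nowhere dense (closed, and a nonempty open subset of
`closure (G n)` meets `G n`), hence countable.  `O` is uncountable: otherwise it would be nowhere dense
by `hX.ctb`, but it is a nonempty open set contained in its closure.  So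
`Z = O \ ⋃ n, Bd n` is uncountable.  For `x : X` let `φ x : ℕ → Bool`, `φ x n = true` iff `x ∈ G n`.

Step 2.  For every `y : ℕ → Bool` the fibre `F = {x ∈ Z | φ x = y}` is countable: we show that it is
nowhere dense.  Suppose `O₁ = interior (closure F)` is nonempty.  It meets `F ⊆ O`; let `V = O₁ ∩ O`, a
nonempty open set contained in `closure F`.  If `y n = false`, then `V` is disjoint from `G n`, because
otherwise the nonempty open set `V ∩ G n ⊆ closure F` would meet `F`, although `F` is disjoint from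
`G n`.  If `y n = true`, then `F ⊆ G n` and `V ⊆ closure (G n)`, so `V \ G n ⊆ Bd n` is countable.  So the set
`N` of all points of `V` which are outside `G n` for some `n` with `y n = true` is countable, hence nowhere
dense by `hX.ctb`, and `V' = V \ closure N` is a nonempty open set (otherwise `V ⊆ closure N`); for
all `n`, `V' ⊆ G n` or `V'` is disjoint from `G n`, against the choice of `O`.

Step 3.  By `select` (with `X`, `φ`, `S = Z`) there are points `e a ∈ Z`, `a : Om`, with
`r a = φ (e a)` injective.  Let `g` be the function of `spread` and `B ξ = {a | g a = ξ}`, pairwise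
disjoint uncountable sets.  For every `ξ : Om`, `hQ r hr (B ξ)` gives `z ξ : ℕ → List Bool` with
`a ∈ B ξ ↔ {i | Pre (z ξ i) (r a)}.Finite`.  For `a ∈ B ξ` there is `k` with `¬ Pre (z ξ i) (r a)` for all
`i ≥ k`; since `B ξ` is uncountable there is `k ξ` such that
`T ξ = {a | ∀ i ≥ k ξ, ¬ Pre (z ξ i) (r a)}` is uncountable.  Note `T ξ ⊆ B ξ` (the set of all `i` with
`Pre (z ξ i) (r a)` is contained in `{i | i < k ξ}`).

Step 4.  Let `V ξ = interior (closure (e '' T ξ))`: it is nonempty, because `e '' T ξ` is uncountable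
(`e` is injective, as `r` is), hence not nowhere dense (`hX.nwd`).  The `V ξ` are pairwise disjoint: let
`ξ ≠ η` and suppose `V = V ξ ∩ V η` is nonempty.  It is open and contained in the closure of
`e '' T ξ`, so there is `a ∈ T ξ` with `e a ∈ V`.  We claim `a ∈ T η` too: let `i ≥ k η` and suppose
`Pre (z η i) (r a)`.  Let `l` be the length of `z η i` and let `N` be the intersection, over `n < l`, of
`G n` if `e a ∈ G n`, and of `(closure (G n))ᶜ` otherwise.  This is an open set which contains `e a`
(because `e a ∈ Z`, `e a ∉ G n` implies `e a ∉ closure (G n)`).  Now `e a ∈ V ⊆ closure (e '' T η)`, so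
there is `b ∈ T η` with `e b ∈ N`, and then `r b n = r a n` for all `n < l`, so `Pre (z η i) (r b)`,
against `b ∈ T η`.  So `a ∈ T ξ ∩ T η ⊆ B ξ ∩ B η = ∅`, contradiction.

Step 5.  By `ccc` the type `Om` is countable, against `hO.big`.
-/

set_option autoImplicit false

namespace BIT

universe u

/-- The boundary of an open set is nowhere dense. -/
private theorem fib_bd {X : Type u} [TopologicalSpace X] (G : Set X) (hG : IsOpen G) :
    IsNowhereDense (closure G \ G) := by
  show interior (closure (closure G \ G)) = ∅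
  have hcl : IsClosed (closure G \ G) := by
    rw [Set.sdiff_eq]
    exact isClosed_closure.inter hG.isClosed_compl
  rw [hcl.closure_eq]
  by_contra hne
  obtain ⟨x, hx⟩ := Set.nonempty_iff_ne_empty.2 hne
  obtain ⟨y, hy1, hy2⟩ := mem_closure_iff.1 (interior_subset hx).1 _ isOpen_interior hx
  exact (interior_subset hy1).2 hy2

/-- A nonempty open set is uncountable. -/
private theorem fib_unc {X : Type u} [TopologicalSpace X] (hX : Luzin' X) (O : Set X)
    (hO : IsOpen O) (hne : O.Nonempty) : ¬ O.Countable := by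
  intro hc
  have h : interior (closure O) = ∅ := hX.ctb O hc
  obtain ⟨x, hx⟩ := hne
  have : x ∈ interior (closure O) := interior_maximal subset_closure hO hx
  rw [h] at this
  exact this

/-- Step 2. -/
private theorem fib_fibre {X : Type u} [TopologicalSpace X] (hX : Luzin' X) (G : ℕ → Set X)
    (hG : ∀ n, IsOpen (G n)) (O : Set X) (hOo : IsOpen O)
    (h : ∀ V : Set X, IsOpen V → V.Nonempty → V ⊆ O → ∃ n, ¬ Dec V (G n))
    (F : Set X) (hFO : F ⊆ O) (hF : ∀ n, F ⊆ G n ∨ Disjoint F (G n)) : F.Countable := by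
  apply hX.nwd
  show interior (closure F) = ∅
  by_contra hne
  obtain ⟨x, hx⟩ := Set.nonempty_iff_ne_empty.2 hne
  obtain ⟨y, hy1, hy2⟩ := mem_closure_iff.1 (interior_subset hx) _ isOpen_interior hx
  obtain ⟨V, hV⟩ : ∃ V, V = interior (closure F) ∩ O := ⟨_, rfl⟩
  have hVo : IsOpen V := by
    rw [hV]
    exact isOpen_interior.inter hOo
  have hVn : V.Nonempty := ⟨y, by rw [hV]; exact ⟨hy1, hFO hy2⟩⟩
  have hVF : V ⊆ closure F := by
    rw [hV]
    exact fun z hz => interior_subset hz.1
  have hVO : V ⊆ O := by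
    rw [hV]
    exact Set.inter_subset_right
  obtain ⟨N, hN⟩ : ∃ N : Set X, N = ⋃ n, (closure (G n) \ G n) := ⟨_, rfl⟩
  have hNc : N.Countable := by
    rw [hN]
    exact Set.countable_iUnion fun n => hX.nwd _ (fib_bd (G n) (hG n))
  have hNn : interior (closure N) = ∅ := hX.ctb N hNc
  have hV'o : IsOpen (V \ closure N) := hVo.sdiff isClosed_closure
  have hV'n : (V \ closure N).Nonempty := by
    by_contra hemp
    rw [Set.not_nonempty_iff_eq_empty, Set.sdiff_eq_empty] at hemp
    obtain ⟨z, hz⟩ := hVn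
    have : z ∈ interior (closure N) := interior_maximal hemp hVo hz
    rw [hNn] at this
    exact this
  obtain ⟨n, hn⟩ := h _ hV'o hV'n (Set.sdiff_subset.trans hVO)
  apply hn
  rcases hF n with h1 | h1
  · left
    intro z hz
    by_contra hzG
    apply hz.2
    apply subset_closure
    rw [hN]
    exact Set.mem_iUnion.2 ⟨n, closure_mono h1 (hVF hz.1), hzG⟩
  · right
    rw [Set.disjoint_left]
    intro z hz hzG
    obtain ⟨w, hw1, hw2⟩ := mem_closure_iff.1 (hVF hz.1) _ (hG n) hzG
    exact Set.disjoint_left.mp h1 hw2 hw1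

theorem fib {Om : Type} [LinearOrder Om] (hO : IsOm Om) (hQ : QSets Om) {X : Type u}
    [TopologicalSpace X] [T2Space X] (hX : Luzin' X) (G : ℕ → Set X) (hG : ∀ n, IsOpen (G n))
    (O : Set X) (hOo : IsOpen O) (hne : O.Nonempty)
    (h : ∀ V : Set X, IsOpen V → V.Nonempty → V ⊆ O → ∃ n, ¬ Dec V (G n)) : False := by
  classical
  -- Step 1
  obtain ⟨Z, hZ⟩ : ∃ Z : Set X, Z = O \ ⋃ n, (closure (G n) \ G n) := ⟨_, rfl⟩
  have hZO : Z ⊆ O := by
    rw [hZ]
    exact Set.sdiff_subset
  have hZG : ∀ x ∈ Z, ∀ n, x ∉ G n → x ∉ closure (G n) := by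
    intro x hx n hxn hcl
    rw [hZ] at hx
    exact hx.2 (Set.mem_iUnion.2 ⟨n, hcl, hxn⟩)
  have hbdc : (⋃ n, (closure (G n) \ G n)).Countable :=
    Set.countable_iUnion fun n => hX.nwd _ (fib_bd (G n) (hG n))
  have hZc : ¬ Z.Countable := by
    intro hc
    apply fib_unc hX O hOo hne
    refine (hc.union hbdc).mono fun x hx => ?_
    by_cases hx' : x ∈ ⋃ n, (closure (G n) \ G n)
    · exact Or.inr hx'
    · left
      rw [hZ]
      exact ⟨hx, hx'⟩
  obtain ⟨φ, hφ⟩ : ∃ φ : X → ℕ → Bool, ∀ x n, φ x n = true ↔ x ∈ G n :=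
    ⟨fun x n => decide (x ∈ G n), fun x n => by simp⟩
  -- Step 2
  have hfib : ∀ y : ℕ → Bool, {x ∈ Z | φ x = y}.Countable := by
    intro y
    refine fib_fibre hX G hG O hOo h _ (fun x hx => hZO hx.1) fun n => ?_
    by_cases hy : y n = true
    · left
      intro x hx
      rw [← hφ, hx.2]
      exact hy
    · right
      rw [Set.disjoint_left]
      intro x hx hxn
      apply hy
      rw [← hx.2, hφ]
      exact hxn
  -- Step 3
  obtain ⟨e, heZ, hr⟩ := select hO φ Z hZc hfib
  have heinj : Function.Injective e := by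
    intro a b hab
    exact hr (by show φ (e a) = φ (e b); rw [hab])
  obtain ⟨g, hg⟩ := spread hO
  have hz : ∀ ξ : Om, ∃ z : ℕ → List Bool, ∀ a : Om, g a = ξ ↔
      {i : ℕ | Pre (z i) (φ (e a))}.Finite := by
    intro ξ
    obtain ⟨z, hz⟩ := hQ (fun a => φ (e a)) hr {a | g a = ξ}
    exact ⟨z, hz⟩
  choose z hz using hz
  have hk : ∀ ξ : Om, ∃ k : ℕ, ¬ {a | ∀ i ≥ k, ¬ Pre (z ξ i) (φ (e a))}.Countable := by
    intro ξ
    by_contra hcon
    push Not at hcon
    apply hg ξ
    refine (Set.countable_iUnion hcon).mono fun a ha => ?_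
    have hf : {i : ℕ | Pre (z ξ i) (φ (e a))}.Finite := (hz ξ a).1 ha
    obtain ⟨k, hk⟩ := hf.bddAbove
    refine Set.mem_iUnion.2 ⟨k + 1, fun i hi hp => ?_⟩
    have := hk hp
    omega
  choose k hk using hk
  have hTB : ∀ ξ a, (∀ i ≥ k ξ, ¬ Pre (z ξ i) (φ (e a))) → g a = ξ := by
    intro ξ a ha
    rw [hz]
    refine (Set.finite_lt_nat (k ξ)).subset fun i hi => ?_
    by_contra hlt
    exact ha i (not_lt.1 hlt) hi
  -- Step 4
  have hVne : ∀ ξ, (interior (closure (e '' {a | ∀ i ≥ k ξ, ¬ Pre (z ξ i) (φ (e a))}))).Nonempty := by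
    intro ξ
    rw [Set.nonempty_iff_ne_empty]
    intro hemp
    apply hk ξ
    exact Set.countable_of_injective_of_countable_image heinj.injOn (hX.nwd _ hemp)
  have key : ∀ ξ η : Om, ξ ≠ η →
      Disjoint (interior (closure (e '' {a | ∀ i ≥ k ξ, ¬ Pre (z ξ i) (φ (e a))})))
        (interior (closure (e '' {a | ∀ i ≥ k η, ¬ Pre (z η i) (φ (e a))}))) := by
    intro ξ η hξη
    rw [Set.disjoint_left]
    intro x hx1 hx2
    obtain ⟨_, hy1, a, ha, rfl⟩ := mem_closure_iff.1 (interior_subset hx1) _
      (isOpen_interior.inter isOpen_interior) ⟨hx1, hx2⟩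
    have haη : ∀ i ≥ k η, ¬ Pre (z η i) (φ (e a)) := by
      intro i hi hp
      obtain ⟨N, hN⟩ : ∃ N : Set X, N = ⋂ n ∈ Finset.range (z η i).length,
          (if e a ∈ G n then G n else (closure (G n))ᶜ) := ⟨_, rfl⟩
      have hNo : IsOpen N := by
        rw [hN]
        refine isOpen_biInter_finset fun n _ => ?_
        split_ifs
        · exact hG n
        · exact isClosed_closure.isOpen_compl
      have haN : e a ∈ N := by
        rw [hN]
        simp only [Set.mem_iInter]
        intro n _
        split_ifs with hn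
        · exact hn
        · exact hZG _ (heZ a) n hn
      obtain ⟨_, hw1, b, hb, rfl⟩ := mem_closure_iff.1 (interior_subset hy1.2) N hNo haN
      apply hb i hi
      intro j hj
      rw [hp j hj]
      rw [hN] at hw1
      simp only [Set.mem_iInter] at hw1
      have h1 := hw1 j (Finset.mem_range.2 hj)
      by_cases hja : e a ∈ G j
      · rw [if_pos hja] at h1
        rw [(hφ _ _).2 hja, (hφ _ _).2 h1]
      · rw [if_neg hja] at h1
        have h2 : e b ∉ G j := fun h' => h1 (subset_closure h')
        rw [← hφ] at hja h2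
        rw [Bool.not_eq_true] at hja h2
        rw [hja, h2]
    exact hξη ((hTB ξ a ha).symm.trans (hTB η a haη))
  -- Step 5
  have : Countable Om := ccc hX.toLuzin
    (fun ξ => interior (closure (e '' {a | ∀ i ≥ k ξ, ¬ Pre (z ξ i) (φ (e a))})))
    (fun _ => isOpen_interior) hVne key
  exact hO.big (Set.countable_univ_iff.2 this)

end BIT
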