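import Pool.Agent.Helper95.BIT.OmA
import Pool.Agent.Helper95.BIT.Topo

/-!
# BIT/TreeS: if countably many open sets can always be decided, there is a Suslin tree

Hypothesis `hD`: for every sequence `G` of open sets, every nonempty open set contains a nonempty open
set `V` which decides all `G n`: `V ⊆ G n` or `V` is disjoint from `G n`.

Let `S` be the type of pairs `(U, V)` of disjoint nonempty open subsets of `X` (a subtype of
`Set X × Set X`).  Let `g : Om → Om` be the function of `spread`.  We apply `recu` with the following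
property `P b F (U, V)`, where `F a _ = (U_a, V_a)` for `a < b`:

(i) for all `a < b`: `U ⊆ U_a` and `V ⊆ U_a`, or `U` is disjoint from `U_a`;
(ii) if `g b < b` then `U ⊆ U_{g b}`.

Such `(U, V)` exists: let `T = U_{g b}` if `g b < b`, and `T = univ` otherwise (nonempty, because `X` is uncountable).
The set `{a | a < b}` is countable (`hO.small`), so there is a sequence `G` of open sets which enumerates the
sets `U_a`, `a < b` (take `G n = ∅` for all `n` if there is no `a < b`).  By `hD` there is a nonempty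
open `V₀ ⊆ T` which decides all `U_a`, and by `split` there are disjoint nonempty open `U, V ⊆ V₀`.  If
`V₀ ⊆ U_a` then `U, V ⊆ U_a`; if `V₀` is disjoint from `U_a` then so is `U`.

So we get `U_b, V_b` for all `b : Om`.  Let `R a b` mean `a < b ∧ U_b ⊆ U_a`.
* `lt`, `trans`: clear.
* `comp`: let `R a c`, `R b c`, `a < b`.  By (i) `U_b ⊆ U_a` or `U_b` is disjoint from `U_a`; the latter
  is impossible since the nonempty `U_c` is contained in both.
* `succ`: `{b | g b = a}` is uncountable, and `{b | b ≤ a}` is countable, so uncountably many `b > a`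
  have `g b = a`, hence `U_b ⊆ U_a` by (ii).
* `chain`: let `C` be a chain.  For `a < b` in `C`: `R a b`, so `U_b ⊆ U_a`, so `U_b` (nonempty) is not disjoint
  from `U_a` and (i) gives `V_b ⊆ U_a`, which is disjoint from `V_a`.  So the `V_a`, `a ∈ C`, are pairwise
  disjoint nonempty open sets and `C` is countable by `ccc` (with `ι` the subtype of `C`).
* `anti`: for `a < b` in `C`: not `U_b ⊆ U_a`, so by (i) `U_b` is disjoint from `U_a`.  So `C` is
  countable by `ccc`.
-/

set_option autoImplicit false

namespace BIT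

universe u

/-- Pairs of disjoint nonempty open sets. -/
private structure TPair (X : Type u) [TopologicalSpace X] where
  U : Set X
  V : Set X
  Uo : IsOpen U
  Vo : IsOpen V
  Un : U.Nonempty
  Vn : V.Nonempty
  dis : Disjoint U V

private theorem tree_step {Om : Type} [LinearOrder Om] (hO : IsOm Om) {X : Type u}
    [TopologicalSpace X] [T2Space X] (hX : Luzin X)
    (hD : ∀ G : ℕ → Set X, (∀ n, IsOpen (G n)) → ∀ O : Set X, IsOpen O → O.Nonempty →
      ∃ V : Set X, IsOpen V ∧ V.Nonempty ∧ V ⊆ O ∧ ∀ n, Dec V (G n))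
    (g : Om → Om) (b : Om) (f : (a : Om) → a < b → TPair X) :
    ∃ v : TPair X, (∀ (a : Om) (h : a < b),
      (v.U ⊆ (f a h).U ∧ v.V ⊆ (f a h).U) ∨ Disjoint v.U (f a h).U) ∧
      (∀ h : g b < b, v.U ⊆ (f (g b) h).U) := by
  classical
  have hXne : (Set.univ : Set X).Nonempty := by
    rw [Set.nonempty_iff_ne_empty]
    intro h
    apply hX.unc
    rw [h]
    exact Set.countable_empty
  obtain ⟨T, hTo, hTn, hT⟩ : ∃ T : Set X, IsOpen T ∧ T.Nonempty ∧
      ∀ h : g b < b, T ⊆ (f (g b) h).U := by
    by_cases h : g b < b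
    · exact ⟨(f (g b) h).U, (f (g b) h).Uo, (f (g b) h).Un, fun _ => subset_rfl⟩
    · exact ⟨Set.univ, isOpen_univ, hXne, fun h' => absurd h' h⟩
  obtain ⟨G, hGo, hG⟩ : ∃ G : ℕ → Set X, (∀ n, IsOpen (G n)) ∧
      ∀ (a : Om) (h : a < b), ∃ n, G n = (f a h).U := by
    rcases (Set.Iio b).eq_empty_or_nonempty with he | hne
    · refine ⟨fun _ => ∅, fun _ => isOpen_empty, fun a h => ?_⟩
      have : a ∈ Set.Iio b := h
      rw [he] at this
      exact absurd this (Set.notMem_empty a)
    · obtain ⟨s, hs⟩ := (hO.small b).exists_eq_range hne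
      have hsb : ∀ n, s n < b := fun n => by
        have : s n ∈ Set.Iio b := by
          rw [hs]
          exact Set.mem_range_self n
        exact this
      refine ⟨fun n => (f (s n) (hsb n)).U, fun n => (f (s n) (hsb n)).Uo, fun a h => ?_⟩
      have : a ∈ Set.range s := by
        rw [← hs]
        exact h
      obtain ⟨n, rfl⟩ := this
      exact ⟨n, rfl⟩
  obtain ⟨V₀, hV₀o, hV₀n, hV₀T, hdec⟩ := hD G hGo T hTo hTn
  obtain ⟨U, V, hUo, hUn, hUV, hVo, hVn, hVV, hdis⟩ := split hX V₀ hV₀o hV₀n
  refine ⟨⟨U, V, hUo, hVo, hUn, hVn, hdis⟩, fun a h => ?_, fun h => ?_⟩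
  · obtain ⟨n, hn⟩ := hG a h
    rcases hdec n with h1 | h1
    · left
      rw [← hn]
      exact ⟨hUV.trans h1, hVV.trans h1⟩
    · right
      rw [← hn]
      exact h1.mono_left hUV
  · exact (hUV.trans hV₀T).trans (hT h)

theorem tree {Om : Type} [LinearOrder Om] (hO : IsOm Om) {X : Type u} [TopologicalSpace X]
    [T2Space X] (hX : Luzin X)
    (hD : ∀ G : ℕ → Set X, (∀ n, IsOpen (G n)) → ∀ O : Set X, IsOpen O → O.Nonempty →
      ∃ V : Set X, IsOpen V ∧ V.Nonempty ∧ V ⊆ O ∧ ∀ n, Dec V (G n)) :
    ∃ R : Om → Om → Prop, Suslin R := by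
  obtain ⟨g, hg⟩ := spread hO
  obtain ⟨W, hW⟩ := recu hO (S := TPair X) (fun b f v => (∀ (a : Om) (h : a < b),
      (v.U ⊆ (f a h).U ∧ v.V ⊆ (f a h).U) ∨ Disjoint v.U (f a h).U) ∧
      (∀ h : g b < b, v.U ⊆ (f (g b) h).U)) (fun b f => tree_step hO hX hD g b f)
  have h1 : ∀ a b : Om, a < b → ((W b).U ⊆ (W a).U ∧ (W b).V ⊆ (W a).U) ∨
      Disjoint (W b).U (W a).U := fun a b h => (hW b).1 a h
  have h2 : ∀ b : Om, g b < b → (W b).U ⊆ (W (g b)).U := fun b h => (hW b).2 h
  refine ⟨fun a b => a < b ∧ (W b).U ⊆ (W a).U, ⟨?_, ?_, ?_, ?_, ?_, ?_⟩⟩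
  · exact fun a b h => h.1
  · exact fun a b c h h' => ⟨h.1.trans h'.1, h'.2.trans h.2⟩
  · intro a b c hac hbc hab
    refine ⟨hab, ?_⟩
    rcases h1 a b hab with h | h
    · exact h.1
    · exfalso
      obtain ⟨x, hx⟩ := (W c).Un
      exact Set.disjoint_left.mp h (hbc.2 hx) (hac.2 hx)
  · intro a hc
    apply hg a
    have hIic : (Set.Iic a).Countable := by
      have : Set.Iic a = insert a (Set.Iio a) := by
        ext x
        simp [le_iff_eq_or_lt]
      rw [this]
      exact (hO.small a).insert a
    refine (hc.union hIic).mono fun b hb => ?_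
    have hb' : g b = a := hb
    by_cases h : a < b
    · left
      refine ⟨h, ?_⟩
      have := h2 b (by rw [hb']; exact h)
      rwa [hb'] at this
    · right
      exact not_lt.mp h
  · intro C hC
    have hlt : ∀ a b : Om, a ∈ C → b ∈ C → a < b → Disjoint (W a).V (W b).V := by
      intro a b ha hb hab
      have hR := hC a ha b hb hab
      rcases h1 a b hab with h | h
      · exact ((W a).dis.mono_left h.2).symm
      · exfalso
        obtain ⟨x, hx⟩ := (W b).Un
        exact Set.disjoint_left.mp h hx (hR.2 hx)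
    have : Countable C := by
      refine ccc hX (fun i : C => (W i).V) (fun i => (W i).Vo) (fun i => (W i).Vn) ?_
      intro i j hij
      have hne : (i : Om) ≠ j := fun h => hij (Subtype.ext h)
      rcases lt_or_gt_of_ne hne with h | h
      · exact hlt i j i.2 j.2 h
      · exact (hlt j i j.2 i.2 h).symm
    exact this
  · intro C hC
    have hlt : ∀ a b : Om, a ∈ C → b ∈ C → a < b → Disjoint (W a).U (W b).U := by
      intro a b ha hb hab
      have hR := hC a ha b hb hab
      rcases h1 a b hab with h | h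
      · exact absurd ⟨hab, h.1⟩ hR
      · exact h.symm
    have : Countable C := by
      refine ccc hX (fun i : C => (W i).U) (fun i => (W i).Uo) (fun i => (W i).Un) ?_
      intro i j hij
      have hne : (i : Om) ≠ j := fun h => hij (Subtype.ext h)
      rcases lt_or_gt_of_ne hne with h | h
      · exact hlt i j i.2 j.2 h
      · exact (hlt j i j.2 i.2 h).symm
    exact this

end BIT
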