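import Pool.Agent.Helper95.BIT.Red
import Pool.Agent.Helper95.BIT.TreeS
import Pool.Agent.Helper95.BIT.Fib

/-!
# BIT/Main: if every set of reals of size `ℵ₁` is a Q-set and there is no Suslin tree, there is no Luzin space
-/

set_option autoImplicit false

namespace BIT

universe u

theorem main {Om : Type} [LinearOrder Om] (hO : IsOm Om) (hQ : QSets Om)
    (hS : ∀ R : Om → Om → Prop, ¬ Suslin R) (X : Type u) [TopologicalSpace X] [T3Space X] :
    ¬ Luzin X := by
  intro hX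
  obtain ⟨Y, -, hY⟩ := red hO hQ hX
  by_cases hD : ∀ G : ℕ → Set Y, (∀ n, IsOpen (G n)) → ∀ O : Set Y, IsOpen O → O.Nonempty →
      ∃ V : Set Y, IsOpen V ∧ V.Nonempty ∧ V ⊆ O ∧ ∀ n, Dec V (G n)
  · obtain ⟨R, hR⟩ := tree hO hY.toLuzin hD
    exact hS R hR
  · push Not at hD
    obtain ⟨G, hG, O, hOo, hne, h⟩ := hD
    exact fib hO hQ hY G hG O hOo hne (fun V h1 h2 h3 => h V h1 h2 h3)

end BIT
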