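import Pool.Agent.Helper18.BI.Defs
import Pool.Agent.Helper95.BIT.Main

/-!
# BIT/Adapt: the ZFC part for the definitions of the project BI
-/

set_option autoImplicit false

namespace BIT

universe u

theorem mk_om : Cardinal.mk BI.Om = Cardinal.aleph 1 := by
  show Cardinal.mk (Ordinal.omega 1).ToType = Cardinal.aleph 1
  rw [Cardinal.mk_toType, Ordinal.card_omega]

theorem isOm : IsOm BI.Om where
  wf := wellFounded_lt
  small := by
    intro a
    have h1 : Cardinal.mk (Set.Iio a) < Cardinal.mk BI.Om := by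
      refine Cardinal.mk_Iio_lt a ?_
      rw [mk_om, Cardinal.ord_aleph]
      exact (Ordinal.type_toType _).symm
    rw [mk_om] at h1
    rw [← Set.countable_coe_iff, ← Cardinal.mk_le_aleph0_iff]
    rw [← Cardinal.succ_aleph0] at h1
    exact Order.lt_succ_iff.1 h1
  big := by
    rw [Set.countable_univ_iff, ← Cardinal.mk_le_aleph0_iff, mk_om, not_le]
    exact Cardinal.aleph0_lt_aleph_one

theorem pre_iff (l : List Bool) (x : ℕ → Bool) : Pre l x ↔ BI.Pre l x :=
  ⟨fun h j => h j.1 j.2, fun h i hi => h ⟨i, hi⟩⟩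

theorem qsets (h : BI.QSets) : QSets BI.Om := by
  intro r hr A
  obtain ⟨z, hz⟩ := h r hr A
  refine ⟨z, fun a => ?_⟩
  rw [hz a]
  constructor
  · rintro ⟨k, hk⟩
    refine (Set.finite_lt_nat k).subset fun i hi => ?_
    by_contra hlt
    exact hk i (not_lt.1 hlt) ((pre_iff _ _).1 hi)
  · intro hf
    obtain ⟨k, hk⟩ := hf.bddAbove
    refine ⟨k + 1, fun i hi hp => ?_⟩
    have := hk ((pre_iff _ _).2 hp)
    omega

theorem suslin {R : BI.Om → BI.Om → Prop} (h : Suslin R) : BI.SuslinTree R where
  lt := h.lt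
  trans := h.trans
  tree := fun a b c h1 h2 h3 => h.comp a b c h2 h3 h1
  succ := h.succ
  noantichain := by
    intro X hX
    by_contra hcon
    push Not at hcon
    exact hX (h.anti X fun a ha b hb _ => hcon a ha b hb)
  nochain := by
    intro X hX
    by_contra hcon
    push Not at hcon
    refine hX (h.chain X fun a ha b hb hab => ?_)
    by_contra hR
    have h1 := hcon a ha b hb hab.ne hR
    exact absurd (h.lt b a h1) (not_lt.2 hab.le)

/-- If every set of reals of cardinality aleph one is a Q-set and there is no Suslin tree, then there is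
no Luzin space. -/
theorem noLuzin (hQ : BI.QSets) (hS : ∀ R : BI.Om → BI.Om → Prop, ¬ BI.SuslinTree R) (X : Type u)
    [TopologicalSpace X] : ¬ BI.LuzinSpace X := by
  intro hX
  have := hX.t3
  refine main isOm (qsets hQ) (fun R hR => hS R (suslin hR)) X ⟨?_, hX.noiso, hX.nwd⟩
  rw [Set.countable_univ_iff]
  exact not_countable_iff.2 hX.unc

end BIT
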