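import Mathlib

/-!
# No Luzin space from Q-sets and the absence of Suslin trees (ZFC part of MP_414bc7_lc): definitions

`Om` is a type with a well-order all of whose proper initial segments are countable and which is
uncountable itself (so it has the order type of the first uncountable ordinal).
-/

set_option autoImplicit false

namespace BIT

universe u v

/-- `Om` is (order isomorphic to) the first uncountable ordinal. -/
structure IsOm (Om : Type) [LinearOrder Om] : Prop where
  wf : WellFounded ((· < ·) : Om → Om → Prop)
  small : ∀ a : Om, (Set.Iio a).Countable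
  big : ¬ (Set.univ : Set Om).Countable

/-- The finite sequence `l` is an initial segment of the infinite sequence `x`. -/
def Pre (l : List Bool) (x : ℕ → Bool) : Prop := ∀ (i : ℕ) (h : i < l.length), l[i] = x i

/-- Every set of reals of size `ℵ₁` is a Q-set: every subset is a relative `F_σ`. -/
def QSets (Om : Type) : Prop :=
  ∀ r : Om → ℕ → Bool, Function.Injective r → ∀ A : Set Om,
    ∃ z : ℕ → List Bool, ∀ a : Om, a ∈ A ↔ {i : ℕ | Pre (z i) (r a)}.Finite

/-- `R` is a Suslin tree on `Om`. -/
structure Suslin {Om : Type} [LinearOrder Om] (R : Om → Om → Prop) : Prop where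
  lt : ∀ a b, R a b → a < b
  trans : ∀ a b c, R a b → R b c → R a c
  comp : ∀ a b c, R a c → R b c → a < b → R a b
  succ : ∀ a, ¬ {b | R a b}.Countable
  chain : ∀ C : Set Om, (∀ a ∈ C, ∀ b ∈ C, a < b → R a b) → C.Countable
  anti : ∀ C : Set Om, (∀ a ∈ C, ∀ b ∈ C, a < b → ¬ R a b) → C.Countable

/-- `X` is a Luzin space (the separation axiom is assumed separately). -/
structure Luzin (X : Type u) [TopologicalSpace X] : Prop where
  unc : ¬ (Set.univ : Set X).Countable
  noiso : ∀ x : X, ¬ IsOpen {x}
  nwd : ∀ A : Set X, IsNowhereDense A → A.Countable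

/-- A Luzin space in which, moreover, every countable set is nowhere dense. -/
structure Luzin' (X : Type u) [TopologicalSpace X] : Prop extends Luzin X where
  ctb : ∀ A : Set X, A.Countable → IsNowhereDense A

/-- The open set `V` decides the open set `G`. -/
def Dec {X : Type u} (V G : Set X) : Prop := V ⊆ G ∨ Disjoint V G

end BIT
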