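import Pool.Agent.Helper95.BIT.Defs

/-!
# BIT/OmA: elementary facts on `Om` (stub, prove in place)

(1) `card`: the order `<` on `Om` is a well-order (`hO.wf`), so let `o` be its ordinal type
(`Ordinal.type (· < ·)`).  If the first uncountable ordinal `Ordinal.omega 1` were `< o`, it would be
`Ordinal.typein (· < ·) a` for some `a`, and then `Set.Iio a` would have cardinality `ℵ₁`, against
`hO.small`.  So `o ≤ ω₁` and `#Om = card o ≤ ℵ₁`.  As `Om` is uncountable (`hO.big`), `ℵ₁ ≤ #Om`
(`ℵ₁` is the successor of `ℵ₀`).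

(2) `embed`: `S` is uncountable, so `ℵ₁ ≤ #S`, and `#Om = ℵ₁` gives an injection of `Om` into `S`
(universes: use `Cardinal.lift_mk_le'` or compare lifts).

(3) `spread`: `#(Om × Om) = #Om`, so there is a bijection `e : Om ≃ Om × Om`; let `g b = (e b).1`.  The
set `{b | g b = a}` is in bijection with `Om`, so it is uncountable.

(4) `recu`: recursion along the well-founded order: with `WellFounded.fix` let
`F b = Classical.choose (h b (fun a hab => F a))` and use `WellFounded.fix_eq`.

(5) `select`: the image of `S` under `φ` is uncountable, otherwise `S`, the union of its countably many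
countable fibres, would be countable.  By `embed` choose distinct points `y a` of the image, `a : Om`, and
preimages `e a` of them in `S`.
-/

set_option autoImplicit false

namespace BIT

universe u v

theorem card {Om : Type} [LinearOrder Om] (hO : IsOm Om) : Cardinal.mk Om = Cardinal.aleph 1 := by
  haveI : WellFoundedLT Om := ⟨hO.wf⟩
  apply le_antisymm
  · have h1 : Ordinal.type ((· < ·) : Om → Om → Prop) ≤ (Cardinal.aleph 1).ord := by
      apply le_of_forall_lt
      intro o ho
      obtain ⟨a, rfl⟩ := Ordinal.typein_surj ((· < ·) : Om → Om → Prop) ho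
      rw [Cardinal.lt_ord]
      have h2 : (Ordinal.typein ((· < ·) : Om → Om → Prop) a).card = Cardinal.mk (Set.Iio a) := by
        rfl
      rw [h2]
      exact (Cardinal.countable_iff_lt_aleph_one (Set.Iio a)).mp (hO.small a)
    have h3 := Ordinal.card_le_card h1
    rw [Cardinal.card_ord, Ordinal.card_type] at h3
    exact h3
  · by_contra h
    push Not at h
    apply hO.big
    rw [Cardinal.countable_iff_lt_aleph_one, Cardinal.mk_univ]
    exact h

theorem embed {Om : Type} [LinearOrder Om] (hO : IsOm Om) {X : Type u} (S : Set X)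
    (hS : ¬ S.Countable) : ∃ e : Om → X, Function.Injective e ∧ ∀ a, e a ∈ S := by
  have h1 : Cardinal.aleph 1 ≤ Cardinal.mk S := by
    by_contra h
    push Not at h
    exact hS ((Cardinal.countable_iff_lt_aleph_one S).mpr h)
  have h2 : Cardinal.lift.{u} (Cardinal.mk Om) ≤ Cardinal.lift.{0} (Cardinal.mk S) := by
    rw [card hO, Cardinal.lift_aleph, Cardinal.lift_uzero]
    simpa using h1
  obtain ⟨f⟩ := Cardinal.lift_mk_le'.mp h2
  exact ⟨fun a => (f a : X), fun a b hab => f.injective (Subtype.ext hab), fun a => (f a).2⟩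

theorem spread {Om : Type} [LinearOrder Om] (hO : IsOm Om) :
    ∃ g : Om → Om, ∀ a, ¬ {b | g b = a}.Countable := by
  haveI : Infinite Om := by
    by_contra h
    rw [not_infinite_iff_finite] at h
    exact hO.big (Set.toFinite _).countable
  have h1 : Cardinal.mk Om = Cardinal.mk (Om × Om) := by
    simp only [Cardinal.mk_prod, Cardinal.lift_id]
    exact (Cardinal.mul_eq_self (Cardinal.aleph0_le_mk Om)).symm
  obtain ⟨e⟩ := Cardinal.eq.mp h1
  refine ⟨fun b => (e b).1, fun a hc => hO.big ?_⟩
  have h2 : (Set.univ : Set Om) ⊆ (fun b => (e b).2) '' {b | (e b).1 = a} := by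
    intro c _
    exact ⟨e.symm (a, c), by simp, by simp⟩
  exact (hc.image _).mono h2

theorem recu {Om : Type} [LinearOrder Om] (hO : IsOm Om) {S : Type u}
    (P : (b : Om) → ((a : Om) → a < b → S) → S → Prop) (h : ∀ b f, ∃ v, P b f v) :
    ∃ U : Om → S, ∀ b, P b (fun a _ => U a) (U b) := by
  classical
  let F : (b : Om) → ((a : Om) → a < b → S) → S := fun b f => Classical.choose (h b f)
  refine ⟨hO.wf.fix F, fun b => ?_⟩
  have h1 := Classical.choose_spec (h b (fun a _ => hO.wf.fix F a))
  have h2 : hO.wf.fix F b = Classical.choose (h b (fun a _ => hO.wf.fix F a)) :=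
    hO.wf.fix_eq F b
  rw [h2]
  exact h1

theorem select {Om : Type} [LinearOrder Om] (hO : IsOm Om) {X : Type u} {Y : Type v} (φ : X → Y)
    (S : Set X) (hS : ¬ S.Countable) (hf : ∀ y, {x ∈ S | φ x = y}.Countable) :
    ∃ e : Om → X, (∀ a, e a ∈ S) ∧ Function.Injective (fun a => φ (e a)) := by
  have h1 : ¬ (φ '' S).Countable := by
    intro hc
    apply hS
    have h2 : S ⊆ ⋃ y ∈ φ '' S, {x ∈ S | φ x = y} := by
      intro x hx
      simp only [Set.mem_iUnion]
      exact ⟨φ x, ⟨x, hx, rfl⟩, hx, rfl⟩
    exact (hc.biUnion fun y _ => hf y).mono h2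
  obtain ⟨y, hy, hyS⟩ := embed hO (φ '' S) h1
  choose e he using hyS
  refine ⟨e, fun a => (he a).1, fun a b hab => hy ?_⟩
  have h3 : φ (e a) = φ (e b) := hab
  rw [(he a).2, (he b).2] at h3
  exact h3

end BIT
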