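import Pool.Agent.Helper95.BIT.OmA

/-!
# BIT/OmB: Q-sets give an upper bound for uncountably many functions (stub, prove in place)

Let `f : Om → ℕ → ℕ`.  We want `g` with `{a | ∀ n, f a n ≤ g n}` uncountable.

Case 1: some fibre `{a | f a = h}` is uncountable: take `g = h`.

Case 2: all fibres are countable.  By `select` (with `X = Om`, `S = univ`, `φ = f`) there is
`e : Om → Om` with `a ↦ f (e a)` injective (so `e` is injective).  For `h : ℕ → ℕ` let
`s h n = ∑ i ∈ range (n+1), (h i + 1)` (strictly increasing in `n`) and let `c h : ℕ → Bool` be the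
indicator function of the range of `s h`: `c h j = true ↔ ∃ n, s h n = j`.  The map `h ↦ c h` is
injective (the range of a strictly increasing sequence determines the sequence, and `s h` determines
`h`); `c h j = true` for infinitely many `j`.

Let `E` be the countable set of all `x : ℕ → Bool` which are eventually `false`.  The set
`Z = E ∪ {c (f (e a)) | a : Om}` has cardinality `ℵ₁ = #Om`, so there is a bijection
`r₀ : Om ≃ Z`; let `r a = (r₀ a : ℕ → Bool)`, an injective map with range `Z`, and let
`A = {b | r b ∉ E}`.  The hypothesis `QSets Om` gives `z : ℕ → List Bool` with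
`b ∈ A ↔ {i | Pre (z i) (r b)}.Finite`.

For every `b ∈ A` there is `k` such that `¬ Pre (z i) (r b)` for all `i ≥ k`.  `A` is uncountable (it
contains the points corresponding to the uncountably many `c (f (e a))`), so some `k` works for all
`b` in an uncountable set `A' ⊆ A`.  Fix `k`.

For a finite sequence `l : List Bool` let `l0 : ℕ → Bool` be `l` followed by zeros (`false`).  It
belongs to `E ⊆ Z`, so `l0 = r b` for some `b ∉ A`, and there are infinitely many `i` with
`Pre (z i) l0`; in particular there is `i ≥ k` with `Pre (z i) l0`; let `L l` be the length of this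
`z i`.

CLAIM: if `b ∈ A'` and `l` is the sequence of the first `m` values of `r b`, then `r b j = true` for some
`j` with `m ≤ j < L l`.  Otherwise `r b` and `l0` agree below `L l` (below `m` both are given by `l`,
from `m` on, below `L l`, both are `false`), so `Pre (z i) (r b)` for the above `i ≥ k`, against
`b ∈ A'`.

Define `B 0 = 0` and `B (n+1) =` the maximum of `B n` and all `L l` for the finitely many
`l : List Bool` of length `B n`.  By the claim, for `b ∈ A'` the sequence `r b` takes the value `true`
somewhere in `[B n, B (n+1))` for every `n`.  If `r b = c (f (e a))` the `n`-th value `s (f (e a)) n` (the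
`n`-th position of a `true`, counted from `0`) is therefore `< B (n+1)` (there are at least `n+1`
positions of `true` below `B (n+1)`), and `f (e a) n ≤ s (f (e a)) n`.  So `g n = B (n+1)` satisfies
`∀ n, f (e a) n ≤ g n` for all the uncountably many `a` with `c (f (e a)) = r b` for some `b ∈ A'`
(recall `b ∈ A` means `r b ∉ E`, hence `r b = c (f (e a))` for some `a`; different `b` give different
`a`), and `e` is injective.
-/

set_option autoImplicit false

namespace BIT

/-- The partial sums. -/
noncomputable def sB (h : ℕ → ℕ) (n : ℕ) : ℕ := ∑ i ∈ Finset.range (n + 1), (h i + 1)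

theorem sB_zero (h : ℕ → ℕ) : sB h 0 = h 0 + 1 := by simp [sB]

theorem sB_succ (h : ℕ → ℕ) (n : ℕ) : sB h (n + 1) = sB h n + (h (n + 1) + 1) := by
  unfold sB
  rw [Finset.sum_range_succ]

theorem sB_strictMono (h : ℕ → ℕ) : StrictMono (sB h) := by
  apply strictMono_nat_of_lt_succ
  intro n
  rw [sB_succ]
  omega

theorem le_sB (h : ℕ → ℕ) (n : ℕ) : h n ≤ sB h n := by
  cases n with
  | zero => rw [sB_zero]; omega
  | succ n => rw [sB_succ]; omega

theorem sB_inj {h h' : ℕ → ℕ} (H : sB h = sB h') : h = h' := by
  funext n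
  cases n with
  | zero =>
    have := congrFun H 0
    rw [sB_zero, sB_zero] at this
    omega
  | succ n =>
    have h1 := congrFun H n
    have h2 := congrFun H (n + 1)
    rw [sB_succ, sB_succ] at h2
    omega

/-- The indicator function of the range of `sB h`. -/
noncomputable def cB (h : ℕ → ℕ) : ℕ → Bool := by
  classical
  exact fun j => decide (∃ n, sB h n = j)

theorem cB_true (h : ℕ → ℕ) (j : ℕ) : cB h j = true ↔ ∃ n, sB h n = j := by
  classical
  unfold cB
  simp

theorem cB_inj {h h' : ℕ → ℕ} (H : cB h = cB h') : h = h' := by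
  apply sB_inj
  rw [← StrictMono.range_inj (sB_strictMono h) (sB_strictMono h')]
  ext j
  have h1 := cB_true h j
  have h2 := cB_true h' j
  rw [H] at h1
  constructor
  · intro hj
    exact h2.1 (h1.2 hj)
  · intro hj
    exact h1.1 (h2.2 hj)

/-- A finite sequence followed by zeros. -/
def l0 (l : List Bool) : ℕ → Bool := fun i => l.getD i false

theorem l0_lt (l : List Bool) (j : ℕ) (hj : j < l.length) : l0 l j = l[j] := by
  unfold l0
  rw [List.getD_eq_getElem _ _ hj]

theorem l0_ge (l : List Bool) (j : ℕ) (hj : l.length ≤ j) : l0 l j = false := by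
  unfold l0
  rw [List.getD_eq_default _ _ hj]

theorem cB_ne_l0 (h : ℕ → ℕ) (l : List Bool) : cB h ≠ l0 l := by
  intro H
  have h1 : cB h (sB h l.length) = true := (cB_true h _).2 ⟨_, rfl⟩
  rw [H, l0_ge l _ ((sB_strictMono h).le_apply)] at h1
  exact Bool.false_ne_true h1

theorem bound {Om : Type} [LinearOrder Om] (hO : IsOm Om) (hQ : QSets Om) (f : Om → ℕ → ℕ) :
    ∃ g : ℕ → ℕ, ¬ {a | ∀ n, f a n ≤ g n}.Countable := by
  classical
  by_cases hfib : ∃ h : ℕ → ℕ, ¬ {a | f a = h}.Countable
  · obtain ⟨h, hh⟩ := hfib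
    refine ⟨h, fun hc => hh (hc.mono ?_)⟩
    intro a ha n
    have ha' : f a = h := ha
    rw [ha']
  push Not at hfib
  obtain ⟨e, -, he⟩ := select hO f Set.univ hO.big (by
    intro y
    refine (hfib y).mono ?_
    intro a ha
    exact ha.2)
  have heinj : Function.Injective e := by
    intro a b hab
    apply he
    show f (e a) = f (e b)
    rw [hab]
  have hcinj : Function.Injective (fun a => cB (f (e a))) := by
    intro a b hab
    exact he (cB_inj hab)
  set E : Set (ℕ → Bool) := Set.range l0 with hE
  set Z : Set (ℕ → Bool) := E ∪ Set.range (fun a => cB (f (e a))) with hZ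
  have hcE : E.Countable := Set.countable_range _
  have hcard : Cardinal.mk Om = Cardinal.mk Z := by
    have hOm := card hO
    have hal : Cardinal.aleph0 ≤ Cardinal.mk Om := by
      rw [hOm]
      exact Cardinal.aleph0_le_aleph 1
    apply le_antisymm
    · refine Cardinal.mk_le_of_injective (f := fun a => (⟨cB (f (e a)), Or.inr ⟨a, rfl⟩⟩ : Z)) ?_
      intro a b hab
      exact hcinj (congrArg Subtype.val hab)
    · refine le_trans (Cardinal.mk_union_le _ _) ?_
      refine Cardinal.add_le_of_le hal ?_ Cardinal.mk_range_le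
      exact le_trans (Cardinal.le_aleph0_iff_set_countable.2 hcE) hal
  obtain ⟨r0⟩ := Cardinal.eq.1 hcard
  set r : Om → ℕ → Bool := fun a => (r0 a : ℕ → Bool) with hr
  have hrinj : Function.Injective r := by
    intro a b hab
    exact r0.injective (Subtype.ext hab)
  have hrsurj : ∀ x ∈ Z, ∃ b, r b = x := by
    intro x hx
    refine ⟨r0.symm ⟨x, hx⟩, ?_⟩
    simp [hr]
  obtain ⟨z, hz⟩ := hQ r hrinj {b | r b ∉ E}
  have hD : (⋃ k : ℕ, {a : Om | ∀ i, k < i → ¬ Pre (z i) (cB (f (e a)))}) = Set.univ := by
    rw [Set.eq_univ_iff_forall]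
    intro a
    obtain ⟨b, hb⟩ := hrsurj (cB (f (e a))) (Or.inr ⟨a, rfl⟩)
    have hbA : b ∈ {b | r b ∉ E} := by
      show r b ∉ E
      rw [hb]
      rintro ⟨l, hl⟩
      exact cB_ne_l0 _ _ hl.symm
    have hfin := (hz b).1 hbA
    obtain ⟨k, hk⟩ := hfin.bddAbove
    rw [Set.mem_iUnion]
    refine ⟨k, ?_⟩
    intro i hi hpre
    rw [← hb] at hpre
    exact absurd (hk hpre) (by omega)
  have hk : ∃ k : ℕ, ¬ {a : Om | ∀ i, k < i → ¬ Pre (z i) (cB (f (e a)))}.Countable := by
    by_contra hcon
    push Not at hcon
    apply hO.big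
    rw [← hD]
    exact Set.countable_iUnion hcon
  obtain ⟨k, hk⟩ := hk
  have hI : ∀ l : List Bool, ∃ i, k < i ∧ Pre (z i) (l0 l) := by
    intro l
    obtain ⟨b, hb⟩ := hrsurj (l0 l) (Or.inl ⟨l, rfl⟩)
    have hbA : b ∉ {b | r b ∉ E} := by
      intro hbn
      apply hbn
      rw [hb]
      exact ⟨l, rfl⟩
    have hinf : {i : ℕ | Pre (z i) (r b)}.Infinite := by
      intro hfin
      exact hbA ((hz b).2 hfin)
    obtain ⟨i, hi, hki⟩ := hinf.exists_gt k
    refine ⟨i, hki, ?_⟩
    rw [← hb]
    exact hi
  choose I hkI hPI using hI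
  have hM : ∀ m : ℕ, ∃ M : ℕ, ∀ l : List Bool, l.length = m → (z (I l)).length ≤ M := by
    intro m
    have hfin : ((fun l : List Bool => (z (I l)).length) '' {l : List Bool | l.length = m}).Finite :=
      (List.finite_length_eq Bool m).image _
    obtain ⟨M, hM⟩ := hfin.bddAbove
    exact ⟨M, fun l hl => hM ⟨l, hl, rfl⟩⟩
  choose M hM using hM
  let B : ℕ → ℕ := fun n => Nat.rec 0 (fun _ b => M b) n
  have hB0 : B 0 = 0 := rfl
  have hBs : ∀ n, B (n + 1) = M (B n) := fun n => rfl
  have claim : ∀ a : Om, (∀ i, k < i → ¬ Pre (z i) (cB (f (e a)))) → ∀ m : ℕ,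
      ∃ j, m ≤ j ∧ j < M m ∧ cB (f (e a)) j = true := by
    intro a ha m
    by_contra hcon
    push Not at hcon
    set x := cB (f (e a)) with hx
    set l : List Bool := List.ofFn (fun j : Fin m => x j) with hl
    have hlen : l.length = m := by simp [hl]
    apply ha (I l) (hkI l)
    intro j hj
    rw [hPI l j hj]
    have hjM : j < M m := lt_of_lt_of_le hj (hM m l hlen)
    by_cases hjm : j < m
    · rw [l0_lt l j (by omega)]
      simp [hl]
    · rw [l0_ge l j (by omega)]
      have := hcon j (by omega) hjM
      exact (Bool.eq_false_of_not_eq_true this).symm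
  refine ⟨fun n => B (n + 1), fun hc => hk ?_⟩
  have hsub : e '' {a : Om | ∀ i, k < i → ¬ Pre (z i) (cB (f (e a)))} ⊆
      {a | ∀ n, f a n ≤ B (n + 1)} := by
    rintro _ ⟨a, ha, rfl⟩
    have key : ∀ n, sB (f (e a)) n < B (n + 1) := by
      intro n
      induction n with
      | zero =>
        obtain ⟨j, -, hj2, hj3⟩ := claim a ha (B 0)
        obtain ⟨n', hn'⟩ := (cB_true _ _).1 hj3
        rw [hBs]
        refine lt_of_le_of_lt ?_ hj2
        rw [← hn']
        exact (sB_strictMono _).monotone (Nat.zero_le _)
      | succ n ih =>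
        obtain ⟨j, hj1, hj2, hj3⟩ := claim a ha (B (n + 1))
        obtain ⟨n', hn'⟩ := (cB_true _ _).1 hj3
        rw [hBs (n + 1)]
        refine lt_of_le_of_lt ?_ hj2
        rw [← hn']
        apply (sB_strictMono _).monotone
        have : sB (f (e a)) n < sB (f (e a)) n' := by omega
        exact (sB_strictMono _).lt_iff_lt.1 this
    intro n
    exact le_of_lt (lt_of_le_of_lt (le_sB _ n) (key n))
  exact Set.countable_of_injective_of_countable_image heinj.injOn (hc.mono hsub)

end BIT
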