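import Pool.Agent.Helper95.BIT.Sep

/-!
# BIT/Red: passage to a Luzin space in which countable sets are nowhere dense (stub, prove in place)

Let `V : ℕ → Set X` be the sequence of `maxfam` for the property `P V`: `V` is open, nonempty and
countable.  Let `C = ⋃ n, V n`, a countable open set, and `Y₀ = (closure C)ᶜ`, an open set.

`closure C \ C` is nowhere dense (the boundary of an open set is nowhere dense: it is closed, and an
open subset `O` of `closure C \ C` is empty, because a nonempty open subset of `closure C` meets `C`), hence countable.  So
`closure C` is countable and `Y₀` is uncountable.  A nonempty open subset `O` of `Y₀` is uncountable: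
otherwise `P O`, and `O` would meet some `V n ⊆ C`, against `O ⊆ Y₀`.

Let `Y` be the subtype of the points of `Y₀` (a T3 space).
(a) `Y` is uncountable.
(b) no point of `Y` is isolated: if `{y}` is open in `Y`, it is open in `X` since `Y₀` is open
(`IsOpen.isOpenMap_subtype_val`), against `hX.noiso`.
(c) every nowhere dense `A : Set Y` is countable: its image `B` in `X` is nowhere dense (if
`O = interior (closure B)` is nonempty, then `O ∩ Y₀` is nonempty, because `O` meets `B ⊆ Y₀`; the preimage
of `O` in `Y` is a nonempty open subset of the closure of `A` in `Y`, as the closure of `A` in the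
subspace `Y` is the preimage of `closure B`, `closure_subtype` / `Topology.IsInducing.closure_eq_preimage_closure_image`), hence
countable.
(d) every countable `A : Set Y` is nowhere dense in `Y`: let `O` be the interior of the closure of
`A` in `Y`, and `W` its image in `X`, an open set contained in `closure B`, where `B` is the image of
`A`, a countable set.  By `sep`, `W` is countable.  An open subset of `Y₀` which is countable is empty,
so `O` is empty.
-/

set_option autoImplicit false

namespace BIT

universe u

theorem red {Om : Type} [LinearOrder Om] (hO : IsOm Om) (hQ : QSets Om) {X : Type u}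
    [TopologicalSpace X] [T3Space X] (hX : Luzin X) :
    ∃ Y : Set X, IsOpen Y ∧ Luzin' Y := by
  obtain ⟨V, hV, hVmax⟩ := maxfam hX (fun V => IsOpen V ∧ V.Nonempty ∧ V.Countable)
    (fun V h => ⟨h.1, h.2.1⟩)
  have hVopen : ∀ n, IsOpen (V n) := by
    intro n
    rcases hV n with h | h
    · rw [h]
      exact isOpen_empty
    · exact h.1
  have hVc : ∀ n, (V n).Countable := by
    intro n
    rcases hV n with h | h
    · rw [h]
      exact Set.countable_empty
    · exact h.2.2
  obtain ⟨C, hC⟩ : ∃ C, C = ⋃ n, V n := ⟨_, rfl⟩
  have hCo : IsOpen C := by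
    rw [hC]
    exact isOpen_iUnion hVopen
  have hCc : C.Countable := by
    rw [hC]
    exact Set.countable_iUnion hVc
  have hbd : (closure C \ C).Countable := by
    apply hX.nwd
    show interior (closure (closure C \ C)) = ∅
    have hcl : IsClosed (closure C \ C) := by
      rw [Set.sdiff_eq]
      exact isClosed_closure.inter hCo.isClosed_compl
    rw [hcl.closure_eq]
    by_contra hne
    obtain ⟨x, hx⟩ := Set.nonempty_iff_ne_empty.2 hne
    obtain ⟨y, hy1, hy2⟩ := mem_closure_iff.1 (interior_subset hx).1 _ isOpen_interior hx
    exact (interior_subset hy1).2 hy2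
  have hclc : (closure C).Countable := by
    refine (hbd.union hCc).mono fun x hx => ?_
    by_cases h : x ∈ C
    · exact Or.inr h
    · exact Or.inl ⟨hx, h⟩
  have hYo : IsOpen (closure C)ᶜ := isClosed_closure.isOpen_compl
  have hYunc : ¬ ((closure C)ᶜ).Countable := by
    intro h
    apply hX.unc
    refine (h.union hclc).mono fun x _ => ?_
    by_cases h : x ∈ closure C
    · exact Or.inr h
    · exact Or.inl h
  have hOY : ∀ O : Set X, IsOpen O → O ⊆ (closure C)ᶜ → O.Countable → O = ∅ := by
    intro O hO1 hO2 hO3
    by_contra hne
    obtain ⟨k, y, hy1, hy2⟩ := hVmax O ⟨hO1, Set.nonempty_iff_ne_empty.2 hne, hO3⟩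
    exact hO2 hy1 (subset_closure (hC ▸ Set.mem_iUnion.2 ⟨k, hy2⟩))
  have hcl : ∀ A : Set ((closure C)ᶜ : Set X), closure A =
      Subtype.val ⁻¹' closure (Subtype.val '' A) := by
    intro A
    exact Topology.IsInducing.subtypeVal.closure_eq_preimage_closure_image A
  have himg : ∀ O : Set ((closure C)ᶜ : Set X), IsOpen O → IsOpen (Subtype.val '' O) := by
    intro O hO1
    exact hYo.isOpenMap_subtype_val O hO1
  refine ⟨(closure C)ᶜ, hYo, ⟨⟨?_, ?_, ?_⟩, ?_⟩⟩
  · intro h
    apply hYunc
    exact Set.countable_coe_iff.1 (Set.countable_univ_iff.1 h)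
  · intro x hx
    apply hX.noiso x.1
    have h := himg _ hx
    rwa [Set.image_singleton] at h
  · intro A hA
    have hB : IsNowhereDense (Subtype.val '' A : Set X) := by
      show interior (closure (Subtype.val '' A : Set X)) = ∅
      by_contra hne
      obtain ⟨x, hx⟩ := Set.nonempty_iff_ne_empty.2 hne
      obtain ⟨y, hy1, hy2⟩ := mem_closure_iff.1 (interior_subset hx) _ isOpen_interior hx
      obtain ⟨a, ha, rfl⟩ := hy2
      have h1 : IsOpen (Subtype.val ⁻¹' interior (closure (Subtype.val '' A : Set X)) :
          Set ((closure C)ᶜ : Set X)) := isOpen_interior.preimage continuous_subtype_val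
      have h2 : (Subtype.val ⁻¹' interior (closure (Subtype.val '' A : Set X)) :
          Set ((closure C)ᶜ : Set X)) ⊆ closure A := by
        rw [hcl A]
        exact Set.preimage_mono interior_subset
      have h3 := interior_maximal h2 h1
      have h4 : interior (closure A) = ∅ := hA
      rw [h4] at h3
      exact h3 (show a ∈ _ from hy1)
    exact Set.countable_of_injective_of_countable_image Subtype.val_injective.injOn (hX.nwd _ hB)
  · intro A hA
    show interior (closure A) = ∅
    have h1 : IsOpen (Subtype.val '' interior (closure A) : Set X) := himg _ isOpen_interior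
    have h2 : (Subtype.val '' interior (closure A) : Set X) ⊆ closure (Subtype.val '' A) := by
      rintro _ ⟨y, hy, rfl⟩
      have := interior_subset hy
      rw [hcl A] at this
      exact this
    have h3 := sep hO hQ hX _ _ h1 (hA.image _) h2
    have h4 := hOY _ h1 (by rintro _ ⟨y, _, rfl⟩; exact y.2) h3
    exact Set.image_eq_empty.1 h4

end BIT
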