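import Pool.Agent.Helper95.BIT.OmB
import Pool.Agent.Helper95.BIT.Topo

/-!
# BIT/Sep: separable open subsets of a Luzin space are countable (stub, prove in place)

Let `W` be open, `Q` countable and `W ⊆ closure Q`; we may assume that `Q` is nonempty (otherwise `W` is empty) and
enumerate it, `Q = {q 0, q 1, ...}`.  For every `n` let `V n 0, V n 1, ...` be the sequence given by
`maxfam` for the property `P V`: `V` is open, nonempty and `q n ∉ closure V`.  By `refine'` every
nonempty open set contains a set with the property `P`, so the open set `G n = ⋃ k, V n k` meets every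
nonempty open set and `(G n)ᶜ` is countable (`nwd_compl`, `hX.nwd`).

Suppose that `W` is uncountable.  Then so is `S = W ∩ ⋂ n, G n`.  By `embed` there is an injective
`e : Om → X` with values in `S`.  For `a : Om` let `f a n` be some `k` with `e a ∈ V n k`.  By `bound` there are
`g : ℕ → ℕ` and an uncountable set `A` of `a` with `f a n ≤ g n` for all `n`.  Let
`U n = (closure (⋃ k ≤ g n, V n k))ᶜ`; this is an open set which contains `q n`, since
`closure (⋃ k ≤ g n, V n k) = ⋃ k ≤ g n, closure (V n k)` (finite union) and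
`q n ∉ closure (V n k)` (also when `V n k = ∅`).  For `a ∈ A` the point `e a ∈ V n (f a n)` is not in `U n`, for every `n`.
So with `H = ⋃ n, U n`, an open set containing `Q`, we have `e a ∈ W \ H` for `a ∈ A`, and `W \ H` is
uncountable.  But `W \ H` is nowhere dense: suppose `O = interior (closure (W \ H))` is nonempty; it
meets `W \ H`, so `O ∩ W` is a nonempty open subset of `closure Q` and contains some `q n ∈ U n ⊆ H`;
then the open set `O ∩ U n` is nonempty and contained in `closure (W \ H)`, so it meets `W \ H`, although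
`U n ⊆ H`.  Contradiction with `hX.nwd`.
-/

set_option autoImplicit false

namespace BIT

universe u

theorem sep {Om : Type} [LinearOrder Om] (hO : IsOm Om) (hQ : QSets Om) {X : Type u}
    [TopologicalSpace X] [T2Space X] (hX : Luzin X) (W Q : Set X) (hW : IsOpen W)
    (hQc : Q.Countable) (hWQ : W ⊆ closure Q) : W.Countable := by
  classical
  rcases Q.eq_empty_or_nonempty with rfl | hQne
  · rw [closure_empty] at hWQ
    rw [Set.subset_eq_empty hWQ rfl]
    exact Set.countable_empty
  obtain ⟨q, hq⟩ := hQc.exists_eq_range hQne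
  by_contra hWunc
  have hfam : ∀ n, ∃ V : ℕ → Set X,
      (∀ k, V k = ∅ ∨ (IsOpen (V k) ∧ (V k).Nonempty ∧ q n ∉ closure (V k))) ∧
      ∀ O, IsOpen O → O.Nonempty → q n ∉ closure O → ∃ k, (O ∩ V k).Nonempty := by
    intro n
    obtain ⟨V, h1, h2⟩ := maxfam hX (fun V => IsOpen V ∧ V.Nonempty ∧ q n ∉ closure V)
      (fun V h => ⟨h.1, h.2.1⟩)
    exact ⟨V, h1, fun O a b c => h2 O ⟨a, b, c⟩⟩
  choose V hV hVmax using hfam
  have hVopen : ∀ n k, IsOpen (V n k) := by
    intro n k
    rcases hV n k with h | h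
    · rw [h]
      exact isOpen_empty
    · exact h.1
  have hVcl : ∀ n k, q n ∉ closure (V n k) := by
    intro n k
    rcases hV n k with h | h
    · rw [h, closure_empty]
      exact Set.notMem_empty _
    · exact h.2.2
  set G : ℕ → Set X := fun n => ⋃ k, V n k with hGdef
  have hG : ∀ n, IsOpen (G n) := fun n => isOpen_iUnion (hVopen n)
  have hGmeet : ∀ n, ∀ O : Set X, IsOpen O → O.Nonempty → (O ∩ G n).Nonempty := by
    intro n O hO' hne
    obtain ⟨V', h1, h2, h3, h4⟩ := refine' hX (q n) O hO' hne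
    obtain ⟨k, y, hy1, hy2⟩ := hVmax n V' h1 h2 h4
    exact ⟨y, h3 hy1, Set.mem_iUnion.2 ⟨k, hy2⟩⟩
  have hGc : ∀ n, (G n)ᶜ.Countable := fun n => hX.nwd _ (nwd_compl _ (hG n) (hGmeet n))
  have hS : ¬ (W ∩ ⋂ n, G n).Countable := by
    intro hc
    apply hWunc
    refine (hc.union (Set.countable_iUnion hGc)).mono fun x hx => ?_
    by_cases h : x ∈ ⋂ n, G n
    · exact Or.inl ⟨hx, h⟩
    · right
      rw [Set.mem_iInter] at h
      push Not at h
      obtain ⟨n, hn⟩ := h
      exact Set.mem_iUnion.2 ⟨n, hn⟩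
  obtain ⟨e, he, heS⟩ := embed hO _ hS
  have hex : ∀ a n, ∃ k, e a ∈ V n k := by
    intro a n
    exact Set.mem_iUnion.1 (Set.mem_iInter.1 (heS a).2 n)
  choose f hf using hex
  obtain ⟨g, hg⟩ := bound hO hQ f
  set U : ℕ → Set X := fun n => (closure (⋃ k ∈ Finset.range (g n + 1), V n k))ᶜ with hU
  have hUopen : ∀ n, IsOpen (U n) := fun n => isClosed_closure.isOpen_compl
  have hqU : ∀ n, q n ∈ U n := by
    intro n h
    rw [Finset.closure_biUnion] at h
    simp only [Set.mem_iUnion] at h
    obtain ⟨k, _, hk⟩ := h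
    exact hVcl n k hk
  have hWH : ¬ (W \ ⋃ n, U n).Countable := by
    intro hc
    apply hg
    refine (hc.preimage_of_injOn he.injOn).mono fun a ha => ?_
    refine ⟨(heS a).1, fun h => ?_⟩
    obtain ⟨n, hn⟩ := Set.mem_iUnion.1 h
    apply hn
    apply subset_closure
    simp only [Set.mem_iUnion]
    exact ⟨f a n, Finset.mem_range.2 (Nat.lt_succ_of_le (ha n)), hf a n⟩
  apply hWH
  apply hX.nwd
  show interior (closure (W \ ⋃ n, U n)) = ∅
  by_contra hne
  obtain ⟨x, hx⟩ := Set.nonempty_iff_ne_empty.2 hne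
  have hOo : IsOpen (interior (closure (W \ ⋃ n, U n))) := isOpen_interior
  obtain ⟨y, hy1, hy2⟩ := mem_closure_iff.1 (interior_subset hx) _ hOo hx
  obtain ⟨w, hw1, hw2⟩ := mem_closure_iff.1 (hWQ hy2.1) _ (hOo.inter hW) ⟨hy1, hy2.1⟩
  rw [hq] at hw2
  obtain ⟨n, rfl⟩ := hw2
  obtain ⟨z, hz1, hz2⟩ := mem_closure_iff.1 (interior_subset hw1.1) _ (hUopen n) (hqU n)
  exact hz2.2 (Set.mem_iUnion.2 ⟨n, hz1⟩)

end BIT
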